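import Pool.Agent.Run7.h206.SAW.Det
import Pool.Agent.H976R2.KFew

/-! # Walks with few contacts are rare -/

set_option autoImplicit false

namespace Run7.h206.SAW

open scoped Classical
open Pool.Agent.W840.CT Pool.Agent.TH546.SAW

/-- the contacts of a window are counted twice -/
theorem le_sum_g {n a b : ℕ} {ω : Fin (n + 1) → ℤ × ℤ} (hab : a ≤ b) (hb : b ≤ n) :
    2 * tot (pc a (b - a) ω) ≤ ∑ t ∈ Finset.Icc a b, g ω t := by
  unfold g
  rw [sum_card_filter (r := fun t i => (i + 1 < t ∨ t + 1 < i) ∧ adj (ex ω i) (ex ω t)), two_mul]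
  set P := (Finset.range (b - a + 1) ×ˢ Finset.range (b - a + 1)).filter
      (fun q => q.2 + 1 < q.1 ∧ adj (ex ω (a + q.2)) (ex ω (a + q.1))) with hP
  have e1 : tot (pc a (b - a) ω) = (P.image (fun q => (a + q.1, a + q.2))).card := by
    rw [tot_pc, Finset.card_image_of_injective]
    rintro ⟨i, j⟩ ⟨i', j'⟩ h
    simp only [Prod.mk.injEq, Nat.add_left_cancel_iff] at h ⊢
    exact h
  have e2 : tot (pc a (b - a) ω) = (P.image (fun q => (a + q.2, a + q.1))).card := by
    rw [tot_pc, Finset.card_image_of_injective]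
    rintro ⟨i, j⟩ ⟨i', j'⟩ h
    simp only [Prod.mk.injEq, Nat.add_left_cancel_iff] at h ⊢
    exact ⟨h.2, h.1⟩
  have hdis : Disjoint (P.image (fun q => (a + q.1, a + q.2)))
      (P.image (fun q => (a + q.2, a + q.1))) := by
    rw [Finset.disjoint_left]
    intro q h1 h2
    rw [Finset.mem_image] at h1 h2
    obtain ⟨⟨i, j⟩, h3, rfl⟩ := h1
    obtain ⟨⟨i', j'⟩, h4, h5⟩ := h2
    rw [hP, Finset.mem_filter] at h3 h4
    simp only [Prod.mk.injEq] at h3 h4 h5
    omega
  conv_lhs => rw [e1]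
  rw [← e1]
  calc tot (pc a (b - a) ω) + tot (pc a (b - a) ω)
      = (P.image (fun q => (a + q.1, a + q.2))).card +
        (P.image (fun q => (a + q.2, a + q.1))).card := by rw [← e1, ← e2]
    _ = (P.image (fun q => (a + q.1, a + q.2)) ∪
        P.image (fun q => (a + q.2, a + q.1))).card := (Finset.card_union_of_disjoint hdis).symm
    _ ≤ _ := by
      refine Finset.card_le_card ?_
      intro q hq
      rw [Finset.mem_union, Finset.mem_image, Finset.mem_image] at hq
      rcases hq with ⟨⟨i, j⟩, h3, rfl⟩ | ⟨⟨i, j⟩, h3, rfl⟩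
      · rw [hP, Finset.mem_filter, Finset.mem_product, Finset.mem_range, Finset.mem_range] at h3
        rw [Finset.mem_filter, Finset.mem_product, Finset.mem_Icc, Finset.mem_range]
        obtain ⟨⟨h4, h5⟩, h6, h7⟩ := h3
        simp only at h4 h5 h6 h7 ⊢
        exact ⟨⟨⟨by omega, by omega⟩, by omega⟩, by omega, h7⟩
      · rw [hP, Finset.mem_filter, Finset.mem_product, Finset.mem_range, Finset.mem_range] at h3
        rw [Finset.mem_filter, Finset.mem_product, Finset.mem_Icc, Finset.mem_range]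
        obtain ⟨⟨h4, h5⟩, h6, h7⟩ := h3
        simp only at h4 h5 h6 h7 ⊢
        exact ⟨⟨⟨by omega, by omega⟩, by omega⟩, by omega, adj_comm h7⟩

theorem tot_eq {n : ℕ} (ω : Fin (n + 1) → ℤ × ℤ) : tot ω =
    ((Finset.range (n + 1) ×ˢ Finset.range (n + 1)).filter
      (fun q => q.2 + 1 < q.1 ∧ adj (ex ω q.2) (ex ω q.1))).card := by
  unfold tot
  rw [← sum_card_filter (r := fun t i => i + 1 < t ∧ adj (ex ω i) (ex ω t))]
  refine Finset.sum_congr rfl (fun j hj => ?_)
  rw [Finset.mem_range] at hj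
  unfold kb
  congr 1
  ext i
  simp only [Finset.mem_filter, Finset.mem_range]
  constructor
  · rintro ⟨h1, h2⟩
    exact ⟨by omega, by omega, h2⟩
  · rintro ⟨h1, h2, h3⟩
    exact ⟨by omega, h3⟩

open Pool.Agent.H976R2 in
/-- a bump is a contact -/
theorem bc_le_tot {m : ℕ} {w : List Dir} (hw : w ∈ Pool.Agent.H976R2.SW m) :
    bc w ≤ tot (pth m w) := by
  have hlen := (mem_SW.mp hw).1
  have h1 : ∀ k ≤ m, ex (pth m w) k = (wX (w.take k), wY (w.take k)) := by
    intro k hk
    unfold ex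
    rw [dif_pos (by omega)]
    rfl
  rw [tot_eq]
  unfold bc
  refine Finset.card_le_card_of_injOn (fun i => (i + 3, i)) ?_ ?_
  · intro i hi
    rw [Finset.mem_coe] at hi
    unfold bumps at hi
    rw [Finset.mem_filter] at hi
    obtain ⟨_, h2, h3, h4⟩ := hi
    rw [Finset.mem_coe, Finset.mem_filter, Finset.mem_product, Finset.mem_range, Finset.mem_range]
    simp only
    refine ⟨⟨by omega, by omega⟩, by omega, ?_⟩
    rw [h1 i (by omega), h1 (i + 3) (by omega)]
    have e1 := take_succ_dir w i (by omega)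
    have e2 := take_succ_dir w (i + 1) (by omega)
    have e3 := take_succ_dir w (i + 1 + 1) (by omega)
    have l1 : lt w i = w[i] := by
      unfold lt
      rw [List.getD_eq_getElem]
    have l2 : lt w (i + 1) = w[i + 1] := by
      unfold lt
      rw [List.getD_eq_getElem]
    have l3 : lt w (i + 2) = w[i + 1 + 1] := by
      unfold lt
      rw [List.getD_eq_getElem]
    rw [l1, l3] at h3
    rw [show i + 3 = i + 1 + 1 + 1 by omega, e3, e2, e1, h3]
    unfold adj
    simp only [wX_append, wY_append, wX_cons, wY_cons, wX_nil, wY_nil, add_zero]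
    cases w[i] <;> cases w[i + 1] <;> simp [opp, dx, dy]
  · intro i _ j _ h
    simp only [Prod.mk.injEq] at h
    exact h.2

open Pool.Agent.H976R2 in
theorem card_low_le (m : ℕ) : ((Pool.Agent.TH546.SAW.W m).filter
    (fun v => (tot v : ℝ) < (m : ℝ) / 2000)).card ≤ (few m).card := by
  refine Finset.card_le_card_of_injOn (wordOf m) ?_ ?_
  · intro v hv
    rw [Finset.mem_coe, Finset.mem_filter, Pool.Agent.TH546.SAW.mem_W] at hv
    have h1 : Pool.Agent.H976R2.IsSAW m v := hv.1
    rw [Finset.mem_coe]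
    unfold few
    rw [Finset.mem_filter]
    refine ⟨wordOf_mem h1, ?_⟩
    have h2 := bc_le_tot (wordOf_mem h1)
    rw [pth_wordOf h1] at h2
    have h3 : (bc (wordOf m v) : ℝ) ≤ tot v := by exact_mod_cast h2
    linarith [hv.2]
  · intro v hv v' hv' h
    rw [Finset.mem_coe, Finset.mem_filter, Pool.Agent.TH546.SAW.mem_W] at hv hv'
    have h1 : Pool.Agent.H976R2.IsSAW m v := hv.1
    have h2 : Pool.Agent.H976R2.IsSAW m v' := hv'.1
    rw [← pth_wordOf h1, ← pth_wordOf h2, h]

/-- walks with few contacts are rare -/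
theorem tot_low : ∃ C β : ℝ, 0 < C ∧ 0 < β ∧ ∀ (m : ℕ) (y : ℝ), 0 ≤ y →
    (((Pool.Agent.TH546.SAW.W m).filter
      (fun v => (tot v : ℝ) < (m : ℝ) / 2000 - y)).card : ℝ) ≤
      C * Real.exp (-(β * y)) * cn m := by
  obtain ⟨c, hc, hlow⟩ := cn_lower
  obtain ⟨C, hC, hfew⟩ := Pool.Agent.H976R2.Few.few_card
  set b : ℝ := Real.log (2.43 / 2.428) with hb
  have hb0 : 0 < b := Real.log_pos (by norm_num)
  refine ⟨C / c, 2000 * b, by positivity, by positivity, fun m y hy => ?_⟩
  have hcn := cn_pos m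
  rcases le_or_gt ((m : ℝ) / 2000) y with h | h
  · have : (Pool.Agent.TH546.SAW.W m).filter
        (fun v => (tot v : ℝ) < (m : ℝ) / 2000 - y) = ∅ := by
      rw [Finset.filter_eq_empty_iff]
      intro v _ hv
      have : (0 : ℝ) ≤ tot v := Nat.cast_nonneg _
      linarith
    rw [this, Finset.card_empty, Nat.cast_zero]
    positivity
  · have h1 : ((Pool.Agent.TH546.SAW.W m).filter
        (fun v => (tot v : ℝ) < (m : ℝ) / 2000 - y)).card ≤
        ((Pool.Agent.TH546.SAW.W m).filter (fun v => (tot v : ℝ) < (m : ℝ) / 2000)).card := by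
      refine Finset.card_le_card (fun v hv => ?_)
      rw [Finset.mem_filter] at hv ⊢
      exact ⟨hv.1, by linarith [hv.2]⟩
    have h2 : (((Pool.Agent.TH546.SAW.W m).filter
        (fun v => (tot v : ℝ) < (m : ℝ) / 2000 - y)).card : ℝ) ≤ C * 2.428 ^ m := by
      refine le_trans ?_ (hfew m)
      exact_mod_cast h1.trans (card_low_le m)
    have h3 : (2.428 : ℝ) ^ m = Real.exp (-(b * m)) * 2.43 ^ m := by
      rw [show -(b * m) = (m : ℝ) * (-b) by ring, Real.exp_nat_mul, Real.exp_neg, hb,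
        Real.exp_log (by norm_num), ← mul_pow]
      norm_num
    have h4 : Real.exp (-(b * m)) ≤ Real.exp (-(2000 * b * y)) := by
      refine Real.exp_le_exp.2 ?_
      have : b * (2000 * y) ≤ b * m := mul_le_mul_of_nonneg_left (by linarith) hb0.le
      linarith
    calc _ ≤ C * 2.428 ^ m := h2
      _ = C * (Real.exp (-(b * m)) * 2.43 ^ m) := by rw [h3]
      _ ≤ C * (Real.exp (-(2000 * b * y)) * 2.43 ^ m) := by gcongr
      _ = C / c * Real.exp (-(2000 * b * y)) * (c * 2.43 ^ m) := by field_simp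
      _ ≤ _ := mul_le_mul_of_nonneg_left (hlow m) (by positivity)

end Run7.h206.SAW
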