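import Pool.Agent.Run7.h206.SAW.Det
import Pool.Agent.Run7.h206.SAW.Low
import Pool.Agent.Y981.CT

/-! # All windows of a long walk have few contacts -/

set_option autoImplicit false

namespace Run7.h206.SAW

open scoped Classical
open Pool.Agent.W840.CT Pool.Agent.TH546.SAW

theorem log_facts {n : ℕ} (hn : 2 ≤ n) : 1 ≤ 3 * Real.log n ^ 2 ∧
    ((n : ℝ) + 1) ^ 2 ≤ Real.exp (6 * Real.log n ^ 2) := by
  have hn' : (2 : ℝ) ≤ n := by exact_mod_cast hn
  have h1 : (0.69 : ℝ) < Real.log n := by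
    have h2 := Real.log_two_gt_d9
    have h3 : Real.log 2 ≤ Real.log n := Real.log_le_log (by norm_num) hn'
    linarith
  refine ⟨by nlinarith, ?_⟩
  have h3 : ((n : ℝ) + 1) ^ 2 ≤ (n : ℝ) ^ 4 := by
    have : (n : ℝ) + 1 ≤ (n : ℝ) ^ 2 := by nlinarith
    calc ((n : ℝ) + 1) ^ 2 ≤ ((n : ℝ) ^ 2) ^ 2 := pow_le_pow_left₀ (by linarith) this 2
      _ = (n : ℝ) ^ 4 := by ring
  have h4 : (n : ℝ) ^ 4 = Real.exp (4 * Real.log n) := by
    rw [show (4 : ℝ) * Real.log n = ((4 : ℕ) : ℝ) * Real.log n by norm_num, Real.exp_nat_mul,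
      Real.exp_log (by linarith)]
  rw [h4] at h3
  refine h3.trans (Real.exp_le_exp.2 ?_)
  nlinarith

/-- an event for one piece -/
theorem one_piece {n a m : ℕ} (h : a + m ≤ n) (P : (Fin (m + 1) → ℤ × ℤ) → Prop) :
    (((W n).filter (fun ω => P (pc a m ω))).card : ℝ) ≤
      cn a * (((W m).filter P).card : ℝ) * cn (n - (a + m)) := by
  have h1 := sum_prod a m (n - (a + m)) (fun _ v => if P v then (1 : ℝ) else 0)
    (fun _ v => by split_ifs <;> norm_num) 1 n (by omega)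
  simp only [Finset.range_one, Finset.prod_singleton, zero_mul, add_zero] at h1
  rw [Finset.sum_boole, Finset.sum_boole] at h1
  exact h1

theorem piece_le : ∃ K : ℝ, 0 ≤ K ∧ ∀ n : ℕ, 2 ≤ n → ∀ a m : ℕ, a + m ≤ n →
    ∀ (P : (Fin (m + 1) → ℤ × ℤ) → Prop) (δ : ℝ), 0 ≤ δ →
    (((W m).filter P).card : ℝ) ≤ δ * cn m →
    (((W n).filter (fun ω => P (pc a m ω))).card : ℝ) ≤
      δ * Real.exp (K * Real.log n ^ 2) * cn n := by
  obtain ⟨K, hK, hup⟩ := Pool.Agent.Y981.CT.cn_upper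
  refine ⟨3 * K, by positivity, fun n hn a m ham P δ hδ hP => ?_⟩
  have h1 := one_piece ham P
  have h2 := hup n hn a (by omega)
  have h3 := hup n hn m (by omega)
  have h4 := hup n hn (n - (a + m)) (by omega)
  have h5 := mu_pow_le_cn n
  have hmu := mu_pos
  have p1 := cn_pos a
  have p2 := cn_pos m
  have p3 := cn_pos (n - (a + m))
  calc (((W n).filter (fun ω => P (pc a m ω))).card : ℝ)
      ≤ cn a * (((W m).filter P).card : ℝ) * cn (n - (a + m)) := h1
    _ ≤ cn a * (δ * cn m) * cn (n - (a + m)) := by gcongr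
    _ = δ * (cn a * cn m * cn (n - (a + m))) := by ring
    _ ≤ δ * ((H981.mu ^ a * Real.exp (K * Real.log n ^ 2)) *
        (H981.mu ^ m * Real.exp (K * Real.log n ^ 2)) *
        (H981.mu ^ (n - (a + m)) * Real.exp (K * Real.log n ^ 2))) := by gcongr
    _ = δ * Real.exp (3 * K * Real.log n ^ 2) * H981.mu ^ (a + m + (n - (a + m))) := by
        rw [pow_add, pow_add, show (3 : ℝ) * K * Real.log n ^ 2 =
          ((3 : ℕ) : ℝ) * (K * Real.log n ^ 2) by push_cast; ring, Real.exp_nat_mul]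
        ring
    _ = δ * Real.exp (3 * K * Real.log n ^ 2) * H981.mu ^ n := by
        rw [show a + m + (n - (a + m)) = n by omega]
    _ ≤ _ := by gcongr

/-- union bound over the windows -/
theorem union_windows (n : ℕ) (P : (a m : ℕ) → (Fin (n + 1) → ℤ × ℤ) → Prop) (δ : ℝ)
    (hP : ∀ a m : ℕ, a + m ≤ n → (((W n).filter (P a m)).card : ℝ) ≤ δ) :
    (((W n).filter (fun ω => ∃ a b : ℕ, a ≤ b ∧ b ≤ n ∧ P a (b - a) ω)).card : ℝ) ≤
      ((n : ℝ) + 1) ^ 2 * δ := by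
  have hδ : 0 ≤ δ := (Nat.cast_nonneg _).trans (hP 0 0 (by omega))
  have hsub : (W n).filter (fun ω => ∃ a b : ℕ, a ≤ b ∧ b ≤ n ∧ P a (b - a) ω) ⊆
      ((Finset.range (n + 1) ×ˢ Finset.range (n + 1)).filter (fun q => q.1 + q.2 ≤ n)).biUnion
        (fun q => (W n).filter (P q.1 q.2)) := by
    intro ω hω
    rw [Finset.mem_filter] at hω
    obtain ⟨hω, a, b, hab, hb, h⟩ := hω
    rw [Finset.mem_biUnion]
    refine ⟨(a, b - a), ?_, Finset.mem_filter.2 ⟨hω, h⟩⟩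
    rw [Finset.mem_filter, Finset.mem_product, Finset.mem_range, Finset.mem_range]
    simp only
    omega
  have h1 := (Finset.card_le_card hsub).trans Finset.card_biUnion_le
  have h2 : (∑ q ∈ (Finset.range (n + 1) ×ˢ Finset.range (n + 1)).filter
      (fun q => q.1 + q.2 ≤ n), (((W n).filter (P q.1 q.2)).card : ℝ)) ≤
      ∑ _q ∈ (Finset.range (n + 1) ×ˢ Finset.range (n + 1)).filter
      (fun q => q.1 + q.2 ≤ n), δ :=
    Finset.sum_le_sum (fun q hq => hP _ _ (Finset.mem_filter.1 hq).2)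
  rw [Finset.sum_const, nsmul_eq_mul] at h2
  have h3 : (((Finset.range (n + 1) ×ˢ Finset.range (n + 1)).filter
      (fun q => q.1 + q.2 ≤ n)).card : ℝ) ≤ ((n : ℝ) + 1) ^ 2 := by
    have h4 := Finset.card_filter_le (Finset.range (n + 1) ×ˢ Finset.range (n + 1))
      (fun q => q.1 + q.2 ≤ n)
    rw [Finset.card_product, Finset.card_range] at h4
    have h5 : (((Finset.range (n + 1) ×ˢ Finset.range (n + 1)).filter
      (fun q => q.1 + q.2 ≤ n)).card : ℝ) ≤ ((n + 1) * (n + 1) : ℕ) := by exact_mod_cast h4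
    push_cast at h5
    nlinarith
  have h6 : (((W n).filter (fun ω => ∃ a b : ℕ, a ≤ b ∧ b ≤ n ∧ P a (b - a) ω)).card : ℝ) ≤
      ∑ q ∈ (Finset.range (n + 1) ×ˢ Finset.range (n + 1)).filter
        (fun q => q.1 + q.2 ≤ n), (((W n).filter (P q.1 q.2)).card : ℝ) := by exact_mod_cast h1
  exact (h6.trans h2).trans (mul_le_mul_of_nonneg_right h3 hδ)

/-- a tail bound for the pieces gives a bound for all windows -/
theorem windows_gen {β C : ℝ} (hb : 0 < β) (hC : 0 < C)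
    (P : (m : ℕ) → ℝ → (Fin (m + 1) → ℤ × ℤ) → Prop)
    (htail : ∀ (m : ℕ) (y : ℝ), 0 ≤ y →
      (((W m).filter (P m y)).card : ℝ) ≤ C * Real.exp (-(β * y)) * cn m) :
    ∃ K : ℝ, 0 < K ∧ ∀ n : ℕ, 2 ≤ n → ∀ x : ℝ, 0 ≤ x →
    (((W n).filter (fun ω => ∃ a b : ℕ, a ≤ b ∧ b ≤ n ∧
      P (b - a) (K * (Real.log n ^ 2 + x)) (pc a (b - a) ω))).card : ℝ) ≤
        Real.exp (-x) / 4 * cn n := by
  obtain ⟨K₁, hK₁, hpiece⟩ := piece_le
  set A : ℝ := 3 * |Real.log (4 * C)| with hA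
  have hA0 : 0 ≤ A := by positivity
  refine ⟨(1 + K₁ + 6 + A) / β, by positivity, fun n hn x hx => ?_⟩
  obtain ⟨hl1, hl2⟩ := log_facts hn
  set l := Real.log n ^ 2 with hl
  have hl0 : 0 ≤ l := by rw [hl]; positivity
  set y := (1 + K₁ + 6 + A) / β * (l + x) with hy
  have hy0 : 0 ≤ y := by positivity
  have hby : β * y = (1 + K₁ + 6 + A) * (l + x) := by
    rw [hy]
    field_simp
  have h1 := union_windows n (fun a m ω => P m y (pc a m ω))
    (C * Real.exp (-(β * y)) * Real.exp (K₁ * l) * cn n) (fun a m ham =>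
      hpiece n hn a m ham (P m y) _ (by positivity) (htail m y hy0))
  refine h1.trans ?_
  have hcn := cn_pos n
  have h3 : ((n : ℝ) + 1) ^ 2 * (C * Real.exp (-(β * y)) * Real.exp (K₁ * l)) ≤
      Real.exp (-x) / 4 := by
    calc ((n : ℝ) + 1) ^ 2 * (C * Real.exp (-(β * y)) * Real.exp (K₁ * l))
        ≤ Real.exp (6 * l) * (C * Real.exp (-(β * y)) * Real.exp (K₁ * l)) := by gcongr
      _ = C * Real.exp (6 * l - β * y + K₁ * l) := by
          rw [Real.exp_add, Real.exp_sub, Real.exp_neg]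
          field_simp
      _ ≤ C * Real.exp (-x - |Real.log (4 * C)|) := by
          refine mul_le_mul_of_nonneg_left (Real.exp_le_exp.2 ?_) hC.le
          rw [hby]
          have e1 : |Real.log (4 * C)| * 1 ≤ |Real.log (4 * C)| * (3 * l) :=
            mul_le_mul_of_nonneg_left hl1 (abs_nonneg _)
          have e2 : 0 ≤ (K₁ + 6 + A) * x := by positivity
          rw [hA] at e2 ⊢
          nlinarith
      _ ≤ C * Real.exp (-x - Real.log (4 * C)) := by
          refine mul_le_mul_of_nonneg_left (Real.exp_le_exp.2 ?_) hC.le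
          have := le_abs_self (Real.log (4 * C))
          linarith
      _ = Real.exp (-x) / 4 := by
          rw [Real.exp_sub, Real.exp_log (by positivity)]
          field_simp
  calc ((n : ℝ) + 1) ^ 2 * (C * Real.exp (-(β * y)) * Real.exp (K₁ * l) * cn n)
      = ((n : ℝ) + 1) ^ 2 * (C * Real.exp (-(β * y)) * Real.exp (K₁ * l)) * cn n := by ring
    _ ≤ _ := mul_le_mul_of_nonneg_right h3 (by linarith)

/-- all windows of a long walk have few contacts, but not too few -/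
theorem all_windows : ∃ K : ℝ, 0 < K ∧ ∀ n : ℕ, 2 ≤ n → ∀ x : ℝ, 0 ≤ x →
    (((W n).filter (fun ω => ¬ ∀ a b : ℕ, a ≤ b → b ≤ n →
      ((b : ℝ) - a) / 1000 - K * (Real.log n ^ 2 + x) ≤ ∑ t ∈ Finset.Icc a b, (g ω t : ℝ) ∧
      ∑ t ∈ Finset.Icc a b, (g ω t : ℝ) ≤ 1.04 * ((b : ℝ) - a) +
        K * (Real.log n ^ 2 + x))).card : ℝ) ≤ Real.exp (-x) * cn n := by
  obtain ⟨C, hC, htail⟩ := tot_tail
  obtain ⟨K₁, hK₁, h1⟩ := windows_gen bt_pos hC
    (fun m y v => 0.52 * (m : ℝ) + y < (tot v : ℝ)) (fun m y _ => htail m y)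
  obtain ⟨C', β', hC', hb', htail'⟩ := tot_low
  obtain ⟨K₃, hK₃, h5⟩ := windows_gen hb' hC'
    (fun m y v => (tot v : ℝ) < (m : ℝ) / 2000 - y) htail'
  obtain ⟨K₂, hK₂, h2⟩ := Pool.Agent.Y981.CT.tail_all
  refine ⟨2 * K₁ + 8 * K₂ + 24 + 2 * K₃, by positivity, fun n hn x hx => ?_⟩
  obtain ⟨hl1, _⟩ := log_facts hn
  have e1 := h1 n hn x hx
  have e5 := h5 n hn x hx
  have e2 := h2 n hn (x + 1) (by linarith)
  rw [← card_filter_W] at e2
  have e3 : Real.exp (-(x + 1)) ≤ Real.exp (-x) / 2 := by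
    rw [neg_add, Real.exp_add]
    have : Real.exp (-1) ≤ 1 / 2 := by
      rw [Real.exp_neg, one_div]
      have := Real.add_one_le_exp (1 : ℝ)
      exact inv_anti₀ (by norm_num) (by linarith)
    have h := Real.exp_pos (-x)
    nlinarith
  have hcn := cn_pos n
  set l := Real.log n ^ 2 with hl
  have hl0 : 0 ≤ l := by rw [hl]; positivity
  set R := (2 * K₁ + 8 * K₂ + 24 + 2 * K₃) * (l + x) with hR
  set F0 := (W n).filter (fun ω => ¬ ∀ a b : ℕ, a ≤ b → b ≤ n →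
      ((b : ℝ) - a) / 1000 - R ≤ ∑ t ∈ Finset.Icc a b, (g ω t : ℝ) ∧
      ∑ t ∈ Finset.Icc a b, (g ω t : ℝ) ≤ 1.04 * ((b : ℝ) - a) + R) with hF0
  set F1 := (W n).filter (fun ω => ∃ a b : ℕ, a ≤ b ∧ b ≤ n ∧
        0.52 * ((b - a : ℕ) : ℝ) + K₁ * (l + x) < (tot (pc a (b - a) ω) : ℝ)) with hF1
  set F2 := (W n).filter (fun ω => ∃ t, K₂ * (l + (x + 1)) < TT n t ω) with hF2
  set F3 := (W n).filter (fun ω => ∃ a b : ℕ, a ≤ b ∧ b ≤ n ∧
        (tot (pc a (b - a) ω) : ℝ) < ((b - a : ℕ) : ℝ) / 2000 - K₃ * (l + x)) with hF3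
  have hsub : F0 ⊆ F1 ∪ (F2 ∪ F3) := by
    intro ω hω
    rw [hF0, Finset.mem_filter] at hω
    obtain ⟨hω, hbad⟩ := hω
    rw [Finset.mem_union, Finset.mem_union, hF1, hF2, hF3, Finset.mem_filter, Finset.mem_filter,
      Finset.mem_filter]
    by_contra hcon
    push Not at hcon
    apply hbad
    intro a b hab hb
    have f1 := hcon.1 hω a b hab hb
    have f2 := hcon.2.1 hω
    have f9 := hcon.2.2 hω a b hab hb
    have f3 := sum_g_le (mem_W.1 hω) hab hb
    have f4 : (∑ t ∈ Finset.Icc a b, (g ω t : ℝ)) ≤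
      2 * (tot (pc a (b - a) ω) : ℝ) + TT n (a - 1) ω + TT n (b + 1) ω + 8 := by
      exact_mod_cast f3
    have f10 : 2 * (tot (pc a (b - a) ω) : ℝ) ≤ ∑ t ∈ Finset.Icc a b, (g ω t : ℝ) := by
      exact_mod_cast le_sum_g (ω := ω) hab hb
    have f5 := f2 (a - 1)
    have f6 := f2 (b + 1)
    rw [Nat.cast_sub hab] at f1 f9
    have f7 : K₂ * 1 ≤ K₂ * (3 * l) := mul_le_mul_of_nonneg_left hl1 hK₂.le
    have f8 : 0 ≤ K₂ * x := by positivity
    have f11 : 0 ≤ K₁ * (l + x) := by positivity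
    have f12 : 0 ≤ K₂ * (l + x) := by positivity
    have f13 : 0 ≤ K₃ * (l + x) := by positivity
    rw [hR]
    constructor
    · nlinarith
    · nlinarith
  have h3 := (Finset.card_le_card hsub).trans ((Finset.card_union_le _ _).trans
    (Nat.add_le_add_left (Finset.card_union_le _ _) _))
  have h4 : (F0.card : ℝ) ≤ F1.card + (F2.card + F3.card) := by exact_mod_cast h3
  nlinarith

end Run7.h206.SAW
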