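import Mathlib

/-! # Runs of a finite set of natural numbers -/

set_option autoImplicit false

namespace Run7.h206.SAW

/-- the number of the maximal intervals of `T` -/
def runs (T : Finset ℕ) : ℕ := (T.filter (fun t => t = 0 ∨ t - 1 ∉ T)).card

/-- a bound for the intervals gives a bound for all finite sets -/
theorem sum_runs {f : ℕ → ℝ} {α L : ℝ} {n : ℕ} (hα : 0 ≤ α) (hL : 0 ≤ L)
    (h : ∀ a b : ℕ, a ≤ b → b ≤ n → ∑ t ∈ Finset.Icc a b, f t ≤ α * ((b : ℝ) - a) + L) :
    ∀ (N : ℕ) (T : Finset ℕ), T.card ≤ N → (∀ t ∈ T, t ≤ n) →
      ∑ t ∈ T, f t ≤ α * T.card + L * runs T := by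
  intro N
  induction N with
  | zero =>
    intro T hT hn
    have : T = ∅ := Finset.card_eq_zero.1 (by omega)
    subst this
    simp [runs]
  | succ N ih =>
    intro T hT hn
    rcases T.eq_empty_or_nonempty with rfl | hne
    · simp [runs]
    · set b := T.max' hne with hb
      have hbT : b ∈ T := T.max'_mem hne
      have hex : ∃ a, Finset.Icc a b ⊆ T := ⟨b, by
        intro t ht
        rw [Finset.Icc_self, Finset.mem_singleton] at ht
        rw [ht]
        exact hbT⟩
      classical
      set a := Nat.find hex with ha
      have haT : Finset.Icc a b ⊆ T := Nat.find_spec hex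
      have hab : a ≤ b := Nat.find_min' hex (by
        intro t ht
        rw [Finset.Icc_self, Finset.mem_singleton] at ht
        rw [ht]
        exact hbT)
      have hst : a = 0 ∨ a - 1 ∉ T := by
        by_contra hcon
        push Not at hcon
        obtain ⟨h0, h1⟩ := hcon
        have h2 : a ≤ a - 1 := by
          refine Nat.find_min' hex ?_
          intro t ht
          rw [Finset.mem_Icc] at ht
          rcases Nat.lt_or_ge t a with h3 | h3
          · have : t = a - 1 := by omega
            rw [this]
            exact h1
          · exact haT (Finset.mem_Icc.2 ⟨h3, ht.2⟩)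
        omega
      set T' := T.filter (fun t => t < a) with hT'
      have hun : T = T' ∪ Finset.Icc a b := by
        ext t
        rw [Finset.mem_union, hT', Finset.mem_filter, Finset.mem_Icc]
        constructor
        · intro ht
          rcases Nat.lt_or_ge t a with h3 | h3
          · exact Or.inl ⟨ht, h3⟩
          · exact Or.inr ⟨h3, T.le_max' t ht⟩
        · rintro (h3 | h3)
          · exact h3.1
          · exact haT (Finset.mem_Icc.2 h3)
      have hdis : Disjoint T' (Finset.Icc a b) := by
        rw [Finset.disjoint_left]
        intro t ht h2
        rw [hT', Finset.mem_filter] at ht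
        rw [Finset.mem_Icc] at h2
        omega
      have hcard : T.card = T'.card + (b + 1 - a) := by
        conv_lhs => rw [hun]
        rw [Finset.card_union_of_disjoint hdis, Nat.card_Icc]
      have hsum : ∑ t ∈ T, f t = ∑ t ∈ T', f t + ∑ t ∈ Finset.Icc a b, f t := by
        conv_lhs => rw [hun]
        rw [Finset.sum_union hdis]
      have hruns : runs T' + 1 ≤ runs T := by
        unfold runs
        have h1 : insert a (T'.filter (fun t => t = 0 ∨ t - 1 ∉ T')) ⊆
            T.filter (fun t => t = 0 ∨ t - 1 ∉ T) := by
          intro t ht
          rw [Finset.mem_insert] at ht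
          rcases ht with rfl | ht
          · rw [Finset.mem_filter]
            exact ⟨haT (Finset.mem_Icc.2 ⟨le_rfl, hab⟩), hst⟩
          · rw [Finset.mem_filter] at ht ⊢
            obtain ⟨h3, h4⟩ := ht
            have h5 := h3
            rw [hT', Finset.mem_filter] at h5
            refine ⟨h5.1, ?_⟩
            rcases h4 with h4 | h4
            · exact Or.inl h4
            · right
              intro h6
              apply h4
              rw [hT', Finset.mem_filter]
              exact ⟨h6, by omega⟩
        have h2 := Finset.card_le_card h1
        rw [Finset.card_insert_of_notMem] at h2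
        · exact h2
        · rw [Finset.mem_filter, hT', Finset.mem_filter]
          rintro ⟨⟨_, h3⟩, _⟩
          omega
      have h1 := ih T' (by omega) (fun t ht => hn t (by
        rw [hT', Finset.mem_filter] at ht
        exact ht.1))
      have h2 := h a b hab (hn b hbT)
      have h3 : ((runs T' : ℝ) + 1) ≤ (runs T : ℝ) := by exact_mod_cast hruns
      have h4 : (T.card : ℝ) = T'.card + ((b : ℝ) + 1 - a) := by
        rw [hcard]
        push_cast [Nat.cast_sub (show a ≤ b + 1 by omega)]
        ring
      have h5 := mul_le_mul_of_nonneg_left h3 hL
      rw [hsum, h4]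
      nlinarith

end Run7.h206.SAW
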