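import Pool.Agent.Run7.h206.SAW.Wt
import Pool.Agent.Run7.h206.SAW.Runs

/-! # Contacts of a window and unvisited sites: deterministic part -/

set_option autoImplicit false

namespace Run7.h206.SAW

open scoped Classical
open Pool.Agent.W840.CT Pool.Agent.TH546.SAW

/-- the number of contacts of the site at time `t` -/
noncomputable def g {n : ℕ} (ω : Fin (n + 1) → ℤ × ℤ) (t : ℕ) : ℕ :=
  ((Finset.range (n + 1)).filter
    (fun i => (i + 1 < t ∨ t + 1 < i) ∧ adj (ex ω i) (ex ω t))).card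

/-- the site `u` is visited -/
def Vis {n : ℕ} (ω : Fin (n + 1) → ℤ × ℤ) (u : Pt) : Prop := ∃ i ≤ n, ex ω i = u

/-- the number of the unvisited neighbours of the site at time `t` -/
noncomputable def un {n : ℕ} (ω : Fin (n + 1) → ℤ × ℤ) (t : ℕ) : ℕ :=
  ((nb (ex ω t)).filter (fun u => ¬ Vis ω u)).card

theorem adj_irrefl (p : Pt) : ¬ adj p p := by
  unfold adj
  simp

theorem un_ge {n t : ℕ} {ω : Fin (n + 1) → ℤ × ℤ} : 2 ≤ un ω t + g ω t := by
  have hsub : nb (ex ω t) ⊆ (nb (ex ω t)).filter (fun u => ¬ Vis ω u) ∪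
      (((Finset.range (n + 1)).filter
        (fun i => (i + 1 < t ∨ t + 1 < i) ∧ adj (ex ω i) (ex ω t))).image (ex ω) ∪
        {ex ω (t - 1), ex ω (t + 1)}) := by
    intro u hu
    rw [Finset.mem_union, Finset.mem_union]
    by_cases hv : Vis ω u
    · right
      obtain ⟨i, hi, rfl⟩ := hv
      have hadj := mem_nb.1 hu
      by_cases h1 : i + 1 < t ∨ t + 1 < i
      · left
        rw [Finset.mem_image]
        refine ⟨i, ?_, rfl⟩
        rw [Finset.mem_filter, Finset.mem_range]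
        exact ⟨by omega, h1, adj_comm hadj⟩
      · right
        have hne : i ≠ t := by
          rintro rfl
          exact adj_irrefl _ hadj
        rw [Finset.mem_insert, Finset.mem_singleton]
        have : i = t - 1 ∨ i = t + 1 := by omega
        rcases this with h | h
        · left; rw [h]
        · right; rw [h]
    · left
      rw [Finset.mem_filter]
      exact ⟨hu, hv⟩
  have h1 := Finset.card_le_card hsub
  rw [card_nb] at h1
  have h2 := (h1.trans (Finset.card_union_le _ _)).trans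
    (Nat.add_le_add_left (Finset.card_union_le _ _) _)
  have h3 : (((Finset.range (n + 1)).filter
        (fun i => (i + 1 < t ∨ t + 1 < i) ∧ adj (ex ω i) (ex ω t))).image (ex ω)).card ≤
        g ω t := Finset.card_image_le
  have h4 : ({ex ω (t - 1), ex ω (t + 1)} : Finset Pt).card ≤ 2 := Finset.card_le_two
  unfold un
  omega

theorem sum_card_filter (A B : Finset ℕ) (r : ℕ → ℕ → Prop) [∀ t i, Decidable (r t i)] :
    ∑ t ∈ A, (B.filter (fun i => r t i)).card =
      ((A ×ˢ B).filter (fun q => r q.1 q.2)).card := by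
  simp only [Finset.card_filter, Finset.sum_product]

theorem tot_pc {n a m : ℕ} (ω : Fin (n + 1) → ℤ × ℤ) : tot (pc a m ω) =
    ((Finset.range (m + 1) ×ˢ Finset.range (m + 1)).filter
      (fun q => q.2 + 1 < q.1 ∧ adj (ex ω (a + q.2)) (ex ω (a + q.1)))).card := by
  unfold tot
  rw [← sum_card_filter (r := fun t i => i + 1 < t ∧ adj (ex ω (a + i)) (ex ω (a + t)))]
  refine Finset.sum_congr rfl (fun j hj => ?_)
  rw [Finset.mem_range] at hj
  rw [kb_pc ω (by omega)]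
  congr 1
  ext i
  simp only [Finset.mem_filter, Finset.mem_range]
  constructor
  · rintro ⟨h1, h2⟩
    exact ⟨by omega, by omega, h2⟩
  · rintro ⟨h1, h2, h3⟩
    exact ⟨by omega, h3⟩

theorem TT_eq {n t : ℕ} (ω : Fin (n + 1) → ℤ × ℤ) : TT n t ω =
    ((Finset.range (n + 1) ×ˢ Finset.range (n + 1)).filter
      (fun q => q.1 < t ∧ t < q.2 ∧ adj (ex ω q.1) (ex ω q.2))).card := by
  unfold TT
  refine Finset.card_bij (fun q _ => (q.1.1, q.2.1)) ?_ ?_ ?_
  · rintro ⟨i, j⟩ hq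
    simp only [Finset.mem_filter, Finset.mem_univ, true_and, Finset.mem_product,
      Finset.mem_range] at hq ⊢
    rw [ex_val, ex_val]
    exact ⟨⟨i.2, j.2⟩, hq⟩
  · rintro ⟨i, j⟩ _ ⟨i', j'⟩ _ h
    simp only [Prod.mk.injEq] at h
    rw [Prod.mk.injEq]
    exact ⟨Fin.ext h.1, Fin.ext h.2⟩
  · rintro ⟨i, j⟩ hq
    simp only [Finset.mem_filter, Finset.mem_product, Finset.mem_range] at hq
    refine ⟨(⟨i, hq.1.1⟩, ⟨j, hq.1.2⟩), ?_, rfl⟩
    simp only [Finset.mem_filter, Finset.mem_univ, true_and]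
    rw [← ex_val ω ⟨i, hq.1.1⟩, ← ex_val ω ⟨j, hq.1.2⟩]
    exact hq.2

/-- contacts of a window -/
theorem sum_g_le {n a b : ℕ} {ω : Fin (n + 1) → ℤ × ℤ} (h : SW n ω) (hab : a ≤ b) (hb : b ≤ n) :
    ∑ t ∈ Finset.Icc a b, g ω t ≤
      2 * tot (pc a (b - a) ω) + TT n (a - 1) ω + TT n (b + 1) ω + 8 := by
  unfold g
  rw [sum_card_filter (r := fun t i => (i + 1 < t ∨ t + 1 < i) ∧ adj (ex ω i) (ex ω t))]
  set Q := (Finset.Icc a b ×ˢ Finset.range (n + 1)).filter
    (fun q => (q.2 + 1 < q.1 ∨ q.1 + 1 < q.2) ∧ adj (ex ω q.2) (ex ω q.1)) with hQ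
  have hmem : ∀ q : ℕ × ℕ, q ∈ Q ↔ (a ≤ q.1 ∧ q.1 ≤ b) ∧ q.2 < n + 1 ∧
      (q.2 + 1 < q.1 ∨ q.1 + 1 < q.2) ∧ adj (ex ω q.2) (ex ω q.1) := by
    intro q
    rw [hQ, Finset.mem_filter, Finset.mem_product, Finset.mem_Icc, Finset.mem_range]
    tauto
  -- the parts
  set Q1 := Q.filter (fun q => a ≤ q.2 ∧ q.2 + 1 < q.1) with hQ1
  set Q2 := Q.filter (fun q => q.2 ≤ b ∧ q.1 + 1 < q.2) with hQ2
  set Q3 := Q.filter (fun q => q.2 + 1 < a) with hQ3
  set Q4 := Q.filter (fun q => q.2 + 1 = a) with hQ4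
  set Q5 := Q.filter (fun q => b + 1 < q.2) with hQ5
  set Q6 := Q.filter (fun q => q.2 = b + 1) with hQ6
  have hcov : Q ⊆ Q1 ∪ (Q2 ∪ (Q3 ∪ (Q4 ∪ (Q5 ∪ Q6)))) := by
    intro q hq
    have h1 := (hmem q).1 hq
    simp only [Finset.mem_union, hQ1, hQ2, hQ3, hQ4, hQ5, hQ6, Finset.mem_filter, hq, true_and]
    omega
  have hc := Finset.card_le_card hcov
  have c1 : Q1.card ≤ tot (pc a (b - a) ω) := by
    rw [tot_pc]
    refine Finset.card_le_card_of_injOn (fun q => (q.1 - a, q.2 - a)) ?_ ?_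
    · rintro ⟨t, i⟩ hq
      rw [Finset.mem_coe, hQ1, Finset.mem_filter, hmem] at hq
      obtain ⟨⟨h1, h2, h3, h4⟩, h5, h6⟩ := hq
      simp only at h1 h2 h3 h4 h5 h6
      rw [Finset.mem_coe, Finset.mem_filter, Finset.mem_product, Finset.mem_range,
        Finset.mem_range]
      simp only
      rw [show a + (i - a) = i by omega, show a + (t - a) = t by omega]
      exact ⟨⟨by omega, by omega⟩, by omega, h4⟩
    · rintro ⟨t, i⟩ hq ⟨t', i'⟩ hq' h7
      rw [Finset.mem_coe, hQ1, Finset.mem_filter, hmem] at hq hq'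
      obtain ⟨⟨h1, h2, h3, h4⟩, h5, h6⟩ := hq
      obtain ⟨⟨h1', h2', h3', h4'⟩, h5', h6'⟩ := hq'
      simp only [Prod.mk.injEq] at *
      omega
  have c2 : Q2.card ≤ tot (pc a (b - a) ω) := by
    rw [tot_pc]
    refine Finset.card_le_card_of_injOn (fun q => (q.2 - a, q.1 - a)) ?_ ?_
    · rintro ⟨t, i⟩ hq
      rw [Finset.mem_coe, hQ2, Finset.mem_filter, hmem] at hq
      obtain ⟨⟨h1, h2, h3, h4⟩, h5, h6⟩ := hq
      simp only at h1 h2 h3 h4 h5 h6
      rw [Finset.mem_coe, Finset.mem_filter, Finset.mem_product, Finset.mem_range,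
        Finset.mem_range]
      simp only
      rw [show a + (i - a) = i by omega, show a + (t - a) = t by omega]
      exact ⟨⟨by omega, by omega⟩, by omega, adj_comm h4⟩
    · rintro ⟨t, i⟩ hq ⟨t', i'⟩ hq' h7
      rw [Finset.mem_coe, hQ2, Finset.mem_filter, hmem] at hq hq'
      obtain ⟨⟨h1, h2, h3, h4⟩, h5, h6⟩ := hq
      obtain ⟨⟨h1', h2', h3', h4'⟩, h5', h6'⟩ := hq'
      simp only [Prod.mk.injEq] at *
      omega
  have c3 : Q3.card ≤ TT n (a - 1) ω := by
    rw [TT_eq]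
    refine Finset.card_le_card_of_injOn (fun q => (q.2, q.1)) ?_ ?_
    · rintro ⟨t, i⟩ hq
      rw [Finset.mem_coe, hQ3, Finset.mem_filter, hmem] at hq
      obtain ⟨⟨h1, h2, h3, h4⟩, h5⟩ := hq
      simp only at h1 h2 h3 h4 h5
      rw [Finset.mem_coe, Finset.mem_filter, Finset.mem_product, Finset.mem_range,
        Finset.mem_range]
      exact ⟨⟨by omega, by simp only; omega⟩, by simp only; omega, by simp only; omega, h4⟩
    · rintro ⟨t, i⟩ hq ⟨t', i'⟩ hq' h7
      simp only [Prod.mk.injEq] at *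
      exact ⟨h7.2, h7.1⟩
  have c4 : Q4.card ≤ 4 := by
    rw [← card_nb (ex ω (a - 1))]
    refine Finset.card_le_card_of_injOn (fun q => ex ω q.1) ?_ ?_
    · rintro ⟨t, i⟩ hq
      rw [Finset.mem_coe, hQ4, Finset.mem_filter, hmem] at hq
      obtain ⟨⟨h1, h2, h3, h4⟩, h5⟩ := hq
      simp only at h1 h2 h3 h4 h5
      rw [Finset.mem_coe, mem_nb]
      rw [show i = a - 1 by omega] at h4
      exact h4
    · rintro ⟨t, i⟩ hq ⟨t', i'⟩ hq' h7
      rw [Finset.mem_coe, hQ4, Finset.mem_filter, hmem] at hq hq'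
      obtain ⟨⟨h1, h2, h3, h4⟩, h5⟩ := hq
      obtain ⟨⟨h1', h2', h3', h4'⟩, h5'⟩ := hq'
      simp only at h1 h2 h3 h4 h5 h1' h2' h3' h4' h5' h7
      have := h.inj (by omega) (by omega) h7
      rw [Prod.mk.injEq]
      omega
  have c5 : Q5.card ≤ TT n (b + 1) ω := by
    rw [TT_eq]
    refine Finset.card_le_card_of_injOn (fun q => q) ?_ ?_
    · rintro ⟨t, i⟩ hq
      rw [Finset.mem_coe, hQ5, Finset.mem_filter, hmem] at hq
      obtain ⟨⟨h1, h2, h3, h4⟩, h5⟩ := hq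
      simp only at h1 h2 h3 h4 h5
      rw [Finset.mem_coe, Finset.mem_filter, Finset.mem_product, Finset.mem_range,
        Finset.mem_range]
      exact ⟨⟨by simp only; omega, by omega⟩, by simp only; omega, by simp only; omega,
        adj_comm h4⟩
    · intro q _ q' _ h7
      exact h7
  have c6 : Q6.card ≤ 4 := by
    rw [← card_nb (ex ω (b + 1))]
    refine Finset.card_le_card_of_injOn (fun q => ex ω q.1) ?_ ?_
    · rintro ⟨t, i⟩ hq
      rw [Finset.mem_coe, hQ6, Finset.mem_filter, hmem] at hq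
      obtain ⟨⟨h1, h2, h3, h4⟩, h5⟩ := hq
      simp only at h1 h2 h3 h4 h5
      rw [Finset.mem_coe, mem_nb]
      rw [h5] at h4
      exact h4
    · rintro ⟨t, i⟩ hq ⟨t', i'⟩ hq' h7
      rw [Finset.mem_coe, hQ6, Finset.mem_filter, hmem] at hq hq'
      obtain ⟨⟨h1, h2, h3, h4⟩, h5⟩ := hq
      obtain ⟨⟨h1', h2', h3', h4'⟩, h5'⟩ := hq'
      simp only at h1 h2 h3 h4 h5 h1' h2' h3' h4' h5' h7
      have := h.inj (by omega) (by omega) h7
      rw [Prod.mk.injEq]
      omega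
  have u1 := Finset.card_union_le Q1 (Q2 ∪ (Q3 ∪ (Q4 ∪ (Q5 ∪ Q6))))
  have u2 := Finset.card_union_le Q2 (Q3 ∪ (Q4 ∪ (Q5 ∪ Q6)))
  have u3 := Finset.card_union_le Q3 (Q4 ∪ (Q5 ∪ Q6))
  have u4 := Finset.card_union_le Q4 (Q5 ∪ Q6)
  have u5 := Finset.card_union_le Q5 Q6
  omega

/-- the sites of `D` with a neighbour outside `D` -/
noncomputable def bd (D : Finset Pt) : Finset Pt := D.filter (fun v => ∃ u, adj v u ∧ u ∉ D)

theorem bd_nonempty {D : Finset Pt} (hD : D.Nonempty) : (bd D).Nonempty := by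
  obtain ⟨v, hv, hmax⟩ := D.exists_max_image (fun v => v.1) hD
  refine ⟨v, ?_⟩
  unfold bd
  rw [Finset.mem_filter]
  refine ⟨hv, v + (1, 0), adj_add (Or.inl rfl), fun h => ?_⟩
  have := hmax _ h
  simp at this

/-- the times at which the walk is in `D` -/
noncomputable def tm {n : ℕ} (ω : Fin (n + 1) → ℤ × ℤ) (D : Finset Pt) : Finset ℕ :=
  (Finset.range (n + 1)).filter (fun t => ex ω t ∈ D)

theorem runs_tm {n : ℕ} {ω : Fin (n + 1) → ℤ × ℤ} (h : SW n ω) (D : Finset Pt) :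
    runs (tm ω D) ≤ (bd D).card + 1 := by
  unfold runs
  have hsub : (tm ω D).filter (fun t => t = 0 ∨ t - 1 ∉ tm ω D) ⊆
      insert 0 (((tm ω D).filter (fun t => t = 0 ∨ t - 1 ∉ tm ω D)).erase 0) := by
    intro t ht
    rw [Finset.mem_insert, Finset.mem_erase]
    tauto
  have h1 := (Finset.card_le_card hsub).trans (Finset.card_insert_le _ _)
  refine h1.trans (Nat.add_le_add_right ?_ 1)
  refine Finset.card_le_card_of_injOn (ex ω) ?_ ?_
  · intro t ht
    rw [Finset.mem_coe, Finset.mem_erase, Finset.mem_filter] at ht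
    obtain ⟨h0, h2, h3⟩ := ht
    have h4 := h2
    unfold tm at h4
    rw [Finset.mem_filter, Finset.mem_range] at h4
    rw [Finset.mem_coe]
    unfold bd
    rw [Finset.mem_filter]
    refine ⟨h4.2, ex ω (t - 1), ?_, ?_⟩
    · have h5 := h.step (i := t - 1) (by omega)
      rw [show t - 1 + 1 = t by omega] at h5
      exact adj_comm h5
    · intro h5
      rcases h3 with h3 | h3
      · exact h0 h3
      · apply h3
        unfold tm
        rw [Finset.mem_filter, Finset.mem_range]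
        exact ⟨by omega, h5⟩
  · intro t ht t' ht' h7
    rw [Finset.mem_coe, Finset.mem_erase, Finset.mem_filter] at ht ht'
    have h4 := ht.2.1
    have h4' := ht'.2.1
    unfold tm at h4 h4'
    rw [Finset.mem_filter, Finset.mem_range] at h4 h4'
    exact h.inj (by omega) (by omega) h7

/-- the number of the visited sites of `D` -/
theorem card_tm {n : ℕ} {ω : Fin (n + 1) → ℤ × ℤ} (h : SW n ω) (D : Finset Pt) :
    (tm ω D).card = (D.filter (fun u => Vis ω u)).card := by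
  refine Finset.card_bij (fun t _ => ex ω t) ?_ ?_ ?_
  · intro t ht
    unfold tm at ht
    rw [Finset.mem_filter, Finset.mem_range] at ht
    rw [Finset.mem_filter]
    exact ⟨ht.2, t, by omega, rfl⟩
  · intro t ht t' ht' h7
    unfold tm at ht ht'
    rw [Finset.mem_filter, Finset.mem_range] at ht ht'
    exact h.inj (by omega) (by omega) h7
  · intro u hu
    rw [Finset.mem_filter] at hu
    obtain ⟨hu, t, ht, rfl⟩ := hu
    refine ⟨t, ?_, rfl⟩
    unfold tm
    rw [Finset.mem_filter, Finset.mem_range]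
    exact ⟨by omega, hu⟩

theorem sum_un_le {n : ℕ} {ω : Fin (n + 1) → ℤ × ℤ} (h : SW n ω) (D : Finset Pt) :
    ∑ t ∈ tm ω D, un ω t ≤ 4 * (D.filter (fun u => ¬ Vis ω u)).card + 4 * (bd D).card := by
  have h1 : ∑ t ∈ tm ω D, un ω t = ((tm ω D).sigma
      (fun t => (nb (ex ω t)).filter (fun u => ¬ Vis ω u))).card := by
    rw [Finset.card_sigma]
    rfl
  rw [h1]
  have hsub : (tm ω D).sigma (fun t => (nb (ex ω t)).filter (fun u => ¬ Vis ω u)) ⊆
      ((tm ω D).sigma (fun t => (nb (ex ω t)).filter (fun u => ¬ Vis ω u))).filter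
        (fun q => q.2 ∈ D) ∪
      ((tm ω D).sigma (fun t => (nb (ex ω t)).filter (fun u => ¬ Vis ω u))).filter
        (fun q => q.2 ∉ D) := by
    intro q hq
    rw [Finset.mem_union, Finset.mem_filter, Finset.mem_filter]
    tauto
  have h2 := (Finset.card_le_card hsub).trans (Finset.card_union_le _ _)
  have h3 : (((tm ω D).sigma (fun t => (nb (ex ω t)).filter (fun u => ¬ Vis ω u))).filter
        (fun q => q.2 ∈ D)).card ≤ 4 * (D.filter (fun u => ¬ Vis ω u)).card := by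
    have e : ((D.filter (fun u => ¬ Vis ω u)).sigma (fun u => nb u)).card =
        4 * (D.filter (fun u => ¬ Vis ω u)).card := by
      rw [Finset.card_sigma, Finset.sum_congr rfl (fun u _ => card_nb u), Finset.sum_const,
        smul_eq_mul, mul_comm]
    rw [← e]
    refine Finset.card_le_card_of_injOn (fun q => ⟨q.2, ex ω q.1⟩) ?_ ?_
    · rintro ⟨t, u⟩ hq
      rw [Finset.mem_coe, Finset.mem_filter, Finset.mem_sigma, Finset.mem_filter] at hq
      obtain ⟨⟨_, h5, h6⟩, h7⟩ := hq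
      rw [Finset.mem_coe, Finset.mem_sigma, Finset.mem_filter]
      exact ⟨⟨h7, h6⟩, mem_nb.2 (adj_comm (mem_nb.1 h5))⟩
    · rintro ⟨t, u⟩ hq ⟨t', u'⟩ hq' h7
      rw [Finset.mem_coe, Finset.mem_filter, Finset.mem_sigma] at hq hq'
      have h8 := hq.1.1
      have h8' := hq'.1.1
      unfold tm at h8 h8'
      rw [Finset.mem_filter, Finset.mem_range] at h8 h8'
      simp only [Sigma.mk.injEq, heq_eq_eq] at h7 h8 h8' ⊢
      exact ⟨h.inj (by omega) (by omega) h7.2, h7.1⟩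
  have h4 : (((tm ω D).sigma (fun t => (nb (ex ω t)).filter (fun u => ¬ Vis ω u))).filter
        (fun q => q.2 ∉ D)).card ≤ 4 * (bd D).card := by
    have e : ((bd D).sigma (fun u => nb u)).card = 4 * (bd D).card := by
      rw [Finset.card_sigma, Finset.sum_congr rfl (fun u _ => card_nb u), Finset.sum_const,
        smul_eq_mul, mul_comm]
    rw [← e]
    refine Finset.card_le_card_of_injOn (fun q => ⟨ex ω q.1, q.2⟩) ?_ ?_
    · rintro ⟨t, u⟩ hq
      rw [Finset.mem_coe, Finset.mem_filter, Finset.mem_sigma, Finset.mem_filter] at hq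
      obtain ⟨⟨h8, h5, h6⟩, h7⟩ := hq
      unfold tm at h8
      rw [Finset.mem_filter, Finset.mem_range] at h8
      rw [Finset.mem_coe, Finset.mem_sigma]
      refine ⟨?_, h5⟩
      unfold bd
      rw [Finset.mem_filter]
      exact ⟨h8.2, u, mem_nb.1 h5, h7⟩
    · rintro ⟨t, u⟩ hq ⟨t', u'⟩ hq' h7
      rw [Finset.mem_coe, Finset.mem_filter, Finset.mem_sigma] at hq hq'
      have h8 := hq.1.1
      have h8' := hq'.1.1
      unfold tm at h8 h8'
      rw [Finset.mem_filter, Finset.mem_range] at h8 h8'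
      simp only [Sigma.mk.injEq, heq_eq_eq] at h7 h8 h8' ⊢
      exact ⟨h.inj (by omega) (by omega) h7.1, h7.2⟩
  omega

/-- the unvisited neighbours of a window -/
noncomputable def rimF {n : ℕ} (ω : Fin (n + 1) → ℤ × ℤ) (a b : ℕ) : Finset Pt :=
  ((Finset.Icc a b).biUnion (fun t => nb (ex ω t))).filter (fun u => ¬ Vis ω u)

theorem sum_un_rim {n a b : ℕ} {ω : Fin (n + 1) → ℤ × ℤ} (h : SW n ω) (hb : b ≤ n) :
    ∑ t ∈ Finset.Icc a b, un ω t ≤ 4 * (rimF ω a b).card := by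
  have h1 : ∑ t ∈ Finset.Icc a b, un ω t = ((Finset.Icc a b).sigma
      (fun t => (nb (ex ω t)).filter (fun u => ¬ Vis ω u))).card := by
    rw [Finset.card_sigma]
    rfl
  have e : ((rimF ω a b).sigma (fun u => nb u)).card = 4 * (rimF ω a b).card := by
    rw [Finset.card_sigma, Finset.sum_congr rfl (fun u _ => card_nb u), Finset.sum_const,
      smul_eq_mul, mul_comm]
  rw [h1, ← e]
  refine Finset.card_le_card_of_injOn (fun q => ⟨q.2, ex ω q.1⟩) ?_ ?_
  · rintro ⟨t, u⟩ hq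
    rw [Finset.mem_coe, Finset.mem_sigma, Finset.mem_filter] at hq
    obtain ⟨h4, h5, h6⟩ := hq
    rw [Finset.mem_coe, Finset.mem_sigma]
    refine ⟨?_, mem_nb.2 (adj_comm (mem_nb.1 h5))⟩
    unfold rimF
    rw [Finset.mem_filter, Finset.mem_biUnion]
    exact ⟨⟨t, h4, h5⟩, h6⟩
  · rintro ⟨t, u⟩ hq ⟨t', u'⟩ hq' h7
    rw [Finset.mem_coe, Finset.mem_sigma, Finset.mem_Icc] at hq hq'
    have h8 := hq.1
    have h8' := hq'.1
    simp only [Sigma.mk.injEq, heq_eq_eq] at h7 h8 h8' ⊢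
    exact ⟨h.inj (by omega) (by omega) h7.2, h7.1⟩

theorem rim_ge {n a b : ℕ} {ω : Fin (n + 1) → ℤ × ℤ} (h : SW n ω) {L : ℝ} (hL : 0 ≤ L)
    (hab : a ≤ b)
    (hb : b ≤ n) (hw : ∑ t ∈ Finset.Icc a b, (g ω t : ℝ) ≤ 1.04 * ((b : ℝ) - a) + L) :
    0.24 * ((b : ℝ) - a) ≤ ((rimF ω a b).card : ℝ) + L := by
  have h2 : (2 : ℝ) * (Finset.Icc a b).card ≤ ∑ t ∈ Finset.Icc a b, (un ω t : ℝ) +
      ∑ t ∈ Finset.Icc a b, (g ω t : ℝ) := by
    rw [← Finset.sum_add_distrib, mul_comm, ← nsmul_eq_mul, ← Finset.sum_const]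
    refine Finset.sum_le_sum (fun t _ => ?_)
    exact_mod_cast un_ge
  have h3 : (∑ t ∈ Finset.Icc a b, (un ω t : ℝ)) ≤ 4 * ((rimF ω a b).card : ℝ) := by
    exact_mod_cast sum_un_rim h hb
  have h4 : ((Finset.Icc a b).card : ℝ) = (b : ℝ) - a + 1 := by
    rw [Nat.card_Icc, Nat.cast_sub (by omega)]
    push_cast
    ring
  have h5 : (a : ℝ) ≤ b := by exact_mod_cast hab
  have h6 : (0 : ℝ) ≤ ∑ t ∈ Finset.Icc a b, (g ω t : ℝ) :=
    Finset.sum_nonneg (fun t _ => Nat.cast_nonneg _)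
  have h7 : (0 : ℝ) ≤ ((rimF ω a b).card : ℝ) := Nat.cast_nonneg _
  rw [h4] at h2
  nlinarith

/-- if all windows have few contacts then every domain has many unvisited sites -/
theorem domain {n : ℕ} {ω : Fin (n + 1) → ℤ × ℤ} (h : SW n ω) {L : ℝ} (hL : 0 ≤ L)
    (hw : ∀ a b : ℕ, a ≤ b → b ≤ n →
      ∑ t ∈ Finset.Icc a b, (g ω t : ℝ) ≤ 1.04 * ((b : ℝ) - a) + L) (D : Finset Pt) :
    0.19 * (D.card : ℝ) ≤ ((D.filter (fun u => ¬ Vis ω u)).card : ℝ) +
      (1 + L) * (bd D).card := by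
  rcases D.eq_empty_or_nonempty with rfl | hne
  · simp only [Finset.card_empty, Nat.cast_zero, mul_zero]
    positivity
  have h1 := sum_runs (by norm_num) hL hw _ (tm ω D) le_rfl (by
    intro t ht
    unfold tm at ht
    rw [Finset.mem_filter, Finset.mem_range] at ht
    omega)
  have h2 : (2 : ℝ) * (tm ω D).card ≤ ∑ t ∈ tm ω D, (un ω t : ℝ) + ∑ t ∈ tm ω D, (g ω t : ℝ) := by
    rw [← Finset.sum_add_distrib, mul_comm, ← nsmul_eq_mul, ← Finset.sum_const]
    refine Finset.sum_le_sum (fun t _ => ?_)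
    exact_mod_cast un_ge
  have h3 : (∑ t ∈ tm ω D, (un ω t : ℝ)) ≤
      4 * ((D.filter (fun u => ¬ Vis ω u)).card : ℝ) + 4 * ((bd D).card : ℝ) := by
    exact_mod_cast sum_un_le h D
  have h4 : (runs (tm ω D) : ℝ) ≤ (bd D).card + 1 := by exact_mod_cast runs_tm h D
  have h5 : (1 : ℝ) ≤ (bd D).card := by
    exact_mod_cast Finset.card_pos.2 (bd_nonempty hne)
  have h6 : (D.card : ℝ) = (tm ω D).card + ((D.filter (fun u => ¬ Vis ω u)).card : ℝ) := by
    rw [card_tm h]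
    exact_mod_cast (Finset.card_filter_add_card_filter_not (s := D) (fun u => Vis ω u)).symm
  have h7 : L * runs (tm ω D) ≤ L * (2 * (bd D).card) :=
    mul_le_mul_of_nonneg_left (by linarith) hL
  have h8 : (0 : ℝ) ≤ ((D.filter (fun u => ¬ Vis ω u)).card : ℝ) := Nat.cast_nonneg _
  have h9 : (0 : ℝ) ≤ L * (bd D).card := by positivity
  rw [h6]
  nlinarith

end Run7.h206.SAW
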