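import Pool.Agent.TH546.SAW.Piece
import Pool.Agent.H976R2.KLow

/-! # Walks weighted by their number of contacts -/

set_option autoImplicit false

namespace Run7.h206.SAW

open scoped Classical
open Pool.Agent.W840.CT Pool.Agent.TH546.SAW

theorem cn_lower : ∃ c : ℝ, 0 < c ∧ ∀ n : ℕ, c * (2.43 : ℝ) ^ n ≤ (cn n : ℝ) := by
  obtain ⟨c, hc, h⟩ := Pool.Agent.H976R2.Low.SW_card_lower
  refine ⟨c, hc, fun n => (h n).trans (le_of_eq ?_)⟩
  rw [← Pool.Agent.H976R2.ncard_saw]
  exact congrArg (fun k : ℕ => (k : ℝ)) (Nat.card_coe_set_eq _).symm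

/-- the four neighbours of a site -/
def nb (p : Pt) : Finset Pt := dirs.image (fun d => p + d)

theorem mem_nb {p q : Pt} : q ∈ nb p ↔ adj p q := by
  unfold nb
  rw [Finset.mem_image, adj_iff]
  constructor
  · rintro ⟨d, hd, rfl⟩
    rw [add_sub_cancel_left]
    exact mem_dirs.1 hd
  · intro h
    exact ⟨q - p, mem_dirs.2 h, add_sub_cancel p q⟩

theorem card_nb (p : Pt) : (nb p).card = 4 := by
  unfold nb
  rw [Finset.card_image_of_injective _ (add_right_injective p)]
  rfl

/-- the number of contacts of the site at time `j` with earlier sites -/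
noncomputable def kb {n : ℕ} (ω : Fin (n + 1) → ℤ × ℤ) (j : ℕ) : ℕ :=
  ((Finset.range (j - 1)).filter (fun i => adj (ex ω i) (ex ω j))).card

/-- the number of contacts of a walk -/
noncomputable def tot {n : ℕ} (ω : Fin (n + 1) → ℤ × ℤ) : ℕ :=
  ∑ j ∈ Finset.range (n + 1), kb ω j

theorem kb_pc {n s m j : ℕ} (ω : Fin (n + 1) → ℤ × ℤ) (hj : j ≤ m) :
    kb (pc s m ω) j =
      ((Finset.range (j - 1)).filter (fun i => adj (ex ω (s + i)) (ex ω (s + j)))).card := by
  unfold kb
  congr 1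
  refine Finset.filter_congr (fun i hi => ?_)
  rw [Finset.mem_range] at hi
  rw [ex_pc ω (by omega), ex_pc ω hj, adj_sub]

theorem kb_pc_zero {n m j : ℕ} (ω : Fin (n + 1) → ℤ × ℤ) (hj : j ≤ m) :
    kb (pc 0 m ω) j = kb ω j := by
  rw [kb_pc ω hj]
  unfold kb
  simp only [zero_add]

theorem kb_le_nb {n j : ℕ} {ω : Fin (n + 1) → ℤ × ℤ} (h : SW n ω) (hj : j ≤ n) :
    kb ω j ≤ 4 := by
  rw [← card_nb (ex ω j)]
  unfold kb
  refine Finset.card_le_card_of_injOn (ex ω) ?_ ?_
  · intro i hi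
    rw [Finset.coe_filter] at hi
    exact mem_nb.2 (adj_comm hi.2)
  · intro i hi k hk hik
    rw [Finset.coe_filter] at hi hk
    have h1 := Finset.mem_range.1 hi.1
    have h2 := Finset.mem_range.1 hk.1
    exact h.inj (by omega) (by omega) hik

/-- the number of one-step extensions -/
theorem ext_card {m : ℕ} (hm : 1 ≤ m) {v : Fin (m + 1) → ℤ × ℤ} (hv : SW m v) :
    ((W (m + 1)).filter (fun u => pc 0 m u = v)).card + kb v m ≤ 3 := by
  set F := (W (m + 1)).filter (fun u => pc 0 m u = v) with hF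
  have hu : ∀ u ∈ F, SW (m + 1) u ∧ ∀ k ≤ m, ex u k = ex v k := by
    intro u hu
    rw [hF, Finset.mem_filter, mem_W] at hu
    refine ⟨hu.1, fun k hk => ?_⟩
    rw [← hu.2, ex_pc u hk, hu.1.zero, zero_add, sub_zero]
  set A := F.image (fun u => ex u (m + 1)) with hA
  set B := ((Finset.range (m - 1)).filter (fun i => adj (ex v i) (ex v m))).image (ex v) with hB
  set C : Finset Pt := {ex v (m - 1)} with hC
  have cA : A.card = F.card := by
    rw [hA]
    refine Finset.card_image_of_injOn ?_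
    intro u hu1 u' hu2 h
    have h1 := hu u hu1
    have h2 := hu u' hu2
    refine ex_ext (fun k hk => ?_)
    rcases Nat.lt_or_ge m k with hk' | hk'
    · have : k = m + 1 := by omega
      rw [this]
      exact h
    · rw [h1.2 k hk', h2.2 k hk']
  have cB : B.card = kb v m := by
    rw [hB]
    unfold kb
    refine Finset.card_image_of_injOn ?_
    intro i hi k hk hik
    rw [Finset.coe_filter] at hi hk
    have h1 := Finset.mem_range.1 hi.1
    have h2 := Finset.mem_range.1 hk.1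
    exact hv.inj (by omega) (by omega) hik
  have hAd : ∀ i ≤ m, ex v i ∉ A := by
    intro i hi h
    rw [hA, Finset.mem_image] at h
    obtain ⟨u, hu1, h1⟩ := h
    have h2 := hu u hu1
    rw [← h2.2 i hi] at h1
    have := h2.1.inj (by omega) (by omega) h1
    omega
  have hAB : Disjoint A (B ∪ C) := by
    rw [Finset.disjoint_right]
    intro q hq
    rw [Finset.mem_union] at hq
    rcases hq with hq | hq
    · rw [hB, Finset.mem_image] at hq
      obtain ⟨i, hi, rfl⟩ := hq
      rw [Finset.mem_filter, Finset.mem_range] at hi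
      exact hAd i (by omega)
    · rw [hC, Finset.mem_singleton] at hq
      rw [hq]
      exact hAd (m - 1) (by omega)
  have hBC : Disjoint B C := by
    rw [hC, Finset.disjoint_singleton_right, hB, Finset.mem_image]
    rintro ⟨i, hi, h⟩
    rw [Finset.mem_filter, Finset.mem_range] at hi
    have := hv.inj (by omega) (by omega) h
    omega
  have hsub : A ∪ (B ∪ C) ⊆ nb (ex v m) := by
    intro q hq
    rw [mem_nb]
    rw [Finset.mem_union, Finset.mem_union] at hq
    rcases hq with hq | hq | hq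
    · rw [hA, Finset.mem_image] at hq
      obtain ⟨u, hu1, rfl⟩ := hq
      have h1 := hu u hu1
      rw [← h1.2 m le_rfl]
      exact h1.1.step (by omega)
    · rw [hB, Finset.mem_image] at hq
      obtain ⟨i, hi, rfl⟩ := hq
      rw [Finset.mem_filter] at hi
      exact adj_comm hi.2
    · rw [hC, Finset.mem_singleton] at hq
      rw [hq]
      have h1 := hv.step (i := m - 1) (by omega)
      rw [show m - 1 + 1 = m by omega] at h1
      exact adj_comm h1
  have h := Finset.card_le_card hsub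
  rw [Finset.card_union_of_disjoint hAB, Finset.card_union_of_disjoint hBC, card_nb, cA, cB, hC,
    Finset.card_singleton] at h
  omega

/-- the weighted number of walks -/
noncomputable def Z (m : ℕ) : ℝ := ∑ v ∈ W m, (3 / 2 : ℝ) ^ (∑ j ∈ Finset.range m, kb v j)

theorem small_bound {a k : ℕ} (h : a + k ≤ 3) : (a : ℝ) * (3 / 2 : ℝ) ^ k ≤ 3 := by
  have hk : k ≤ 3 := by omega
  have ha : a ≤ 3 - k := by omega
  have ha' : (a : ℝ) ≤ ((3 - k : ℕ) : ℝ) := by exact_mod_cast ha
  refine (mul_le_mul_of_nonneg_right ha' (by positivity)).trans ?_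
  interval_cases k <;> norm_num

theorem Z_succ {m : ℕ} (hm : 1 ≤ m) : Z (m + 1) ≤ 3 * Z m := by
  unfold Z
  have hmap : ∀ u ∈ W (m + 1), pc 0 m u ∈ W m := fun u hu =>
    mem_W.2 (pc_mem (mem_W.1 hu) (by omega))
  have h1 : ∑ u ∈ W (m + 1), (3 / 2 : ℝ) ^ (∑ j ∈ Finset.range (m + 1), kb u j) =
      ∑ u ∈ W (m + 1), (3 / 2 : ℝ) ^ (∑ j ∈ Finset.range (m + 1), kb (pc 0 m u) j) := by
    refine Finset.sum_congr rfl (fun u hu => ?_)
    congr 1
    refine Finset.sum_congr rfl (fun j hj => ?_)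
    rw [Finset.mem_range] at hj
    rw [kb_pc_zero u (by omega)]
  rw [h1, ← Finset.sum_fiberwise_of_maps_to hmap, Finset.mul_sum]
  refine Finset.sum_le_sum (fun v hv => ?_)
  have h2 : ∑ u ∈ (W (m + 1)).filter (fun u => pc 0 m u = v),
      (3 / 2 : ℝ) ^ (∑ j ∈ Finset.range (m + 1), kb (pc 0 m u) j) =
      (((W (m + 1)).filter (fun u => pc 0 m u = v)).card : ℝ) *
        (3 / 2 : ℝ) ^ (∑ j ∈ Finset.range (m + 1), kb v j) := by
    rw [← nsmul_eq_mul, ← Finset.sum_const]
    refine Finset.sum_congr rfl (fun u hu => ?_)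
    rw [(Finset.mem_filter.1 hu).2]
  rw [h2, Finset.sum_range_succ, pow_add]
  have h3 := small_bound (ext_card hm (mem_W.1 hv))
  have h4 : (0 : ℝ) < (3 / 2 : ℝ) ^ (∑ j ∈ Finset.range m, kb v j) := by positivity
  nlinarith [mul_le_mul_of_nonneg_left h3 h4.le]

theorem cn_zero_le : (cn 0 : ℝ) ≤ 4 := by
  have h5 : cn 0 ≤ 1 := by
    unfold cn
    have : Subsingleton {ω : Fin (0 + 1) → ℤ × ℤ // SW 0 ω} := by
      refine ⟨fun a b => Subtype.ext ?_⟩
      funext i
      have hi : i = 0 := Fin.ext (by have := i.2; simp only [Fin.val_zero]; omega)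
      rw [hi, a.2.1, b.2.1]
    exact Finite.card_le_one_iff_subsingleton.2 this
  have h6 : (cn 0 : ℝ) ≤ 1 := by exact_mod_cast h5
  linarith

theorem Z_le (m : ℕ) : Z m ≤ 4 * 3 ^ m := by
  rcases Nat.eq_zero_or_pos m with rfl | hm
  · unfold Z
    simp only [Finset.range_zero, Finset.sum_empty, pow_zero, Finset.sum_const, nsmul_eq_mul,
      mul_one]
    rw [card_W]
    exact cn_zero_le
  · obtain ⟨k, rfl⟩ : ∃ k, m = k + 1 := ⟨m - 1, by omega⟩
    clear hm
    induction k with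
    | zero =>
      unfold Z
      have h0 : ∀ v ∈ W (0 + 1), (3 / 2 : ℝ) ^ (∑ j ∈ Finset.range (0 + 1), kb v j) = 1 := by
        intro v hv
        have h1 : ∑ j ∈ Finset.range (0 + 1), kb v j = 0 := by
          unfold kb
          simp
        rw [h1, pow_zero]
      rw [Finset.sum_congr rfl h0, Finset.sum_const, nsmul_eq_mul, mul_one, card_W]
      calc (cn (0 + 1) : ℝ) ≤ 4 := cn_one
        _ ≤ 4 * 3 ^ (0 + 1) := by norm_num
    | succ k ih =>
      refine (Z_succ (by omega)).trans ?_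
      rw [pow_succ]
      linarith

theorem sum_tot (m : ℕ) : ∑ v ∈ W m, (3 / 2 : ℝ) ^ (tot v) ≤ 21 * 3 ^ m := by
  have h1 : ∑ v ∈ W m, (3 / 2 : ℝ) ^ (tot v) ≤
      ∑ v ∈ W m, (3 / 2 : ℝ) ^ 4 * (3 / 2 : ℝ) ^ (∑ j ∈ Finset.range m, kb v j) := by
    refine Finset.sum_le_sum (fun v hv => ?_)
    unfold tot
    rw [Finset.sum_range_succ, add_comm, pow_add]
    refine mul_le_mul_of_nonneg_right ?_ (by positivity)
    exact pow_le_pow_right₀ (by norm_num) (kb_le_nb (mem_W.1 hv) le_rfl)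
  rw [← Finset.mul_sum] at h1
  have h2 := Z_le m
  unfold Z at h2
  have h3 : (0 : ℝ) < 3 ^ m := by positivity
  calc _ ≤ _ := h1
    _ ≤ (3 / 2 : ℝ) ^ 4 * (4 * 3 ^ m) := mul_le_mul_of_nonneg_left h2 (by positivity)
    _ ≤ 21 * 3 ^ m := by nlinarith

/-- `β = log (3/2)` -/
noncomputable def bt : ℝ := Real.log (3 / 2)

theorem bt_pos : 0 < bt := Real.log_pos (by norm_num)

theorem exp_bt_nat (k : ℕ) : Real.exp (bt * k) = (3 / 2 : ℝ) ^ k := by
  unfold bt
  rw [mul_comm, Real.exp_nat_mul, Real.exp_log (by norm_num)]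

theorem q_le : Real.exp (-(0.52 * bt)) ≤ 0.81 := by
  have h1 : Real.exp (-(0.52 * bt)) ^ 25 = (2 / 3 : ℝ) ^ 13 := by
    rw [← Real.exp_nat_mul]
    have : ((25 : ℕ) : ℝ) * (-(0.52 * bt)) = -(bt * (13 : ℕ)) := by push_cast; ring
    rw [this, Real.exp_neg, exp_bt_nat]
    norm_num
  refine le_of_pow_le_pow_left₀ (n := 25) (by norm_num) (by norm_num) ?_
  rw [h1]
  norm_num

/-- walks with many contacts are rare -/
theorem tot_tail : ∃ C : ℝ, 0 < C ∧ ∀ (m : ℕ) (y : ℝ),
    (((W m).filter (fun v => 0.52 * (m : ℝ) + y < (tot v : ℝ))).card : ℝ) ≤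
      C * Real.exp (-(bt * y)) * cn m := by
  obtain ⟨c, hc, hlow⟩ := cn_lower
  refine ⟨21 / c, by positivity, fun m y => ?_⟩
  have hb := bt_pos
  have h1 : (((W m).filter (fun v => 0.52 * (m : ℝ) + y < (tot v : ℝ))).card : ℝ) ≤
      ∑ v ∈ W m, Real.exp (-(0.52 * bt) * m) * Real.exp (-(bt * y)) * (3 / 2 : ℝ) ^ (tot v) := by
    rw [Finset.card_eq_sum_ones, Nat.cast_sum]
    push_cast
    rw [Finset.sum_filter]
    refine Finset.sum_le_sum (fun v hv => ?_)
    rw [← exp_bt_nat, ← Real.exp_add, ← Real.exp_add]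
    split_ifs with h
    · rw [Real.one_le_exp_iff]
      nlinarith
    · exact (Real.exp_pos _).le
  rw [← Finset.mul_sum] at h1
  refine h1.trans ?_
  have h2 : Real.exp (-(0.52 * bt) * m) ≤ 0.81 ^ m := by
    rw [mul_comm, Real.exp_nat_mul]
    exact pow_le_pow_left₀ (Real.exp_pos _).le q_le m
  have h3 := sum_tot m
  have h4 := hlow m
  have e1 : (2.43 : ℝ) ^ m = 0.81 ^ m * 3 ^ m := by
    rw [← mul_pow]
    norm_num
  calc Real.exp (-(0.52 * bt) * m) * Real.exp (-(bt * y)) * ∑ v ∈ W m, (3 / 2 : ℝ) ^ (tot v)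
      ≤ 0.81 ^ m * Real.exp (-(bt * y)) * (21 * 3 ^ m) := by
        refine mul_le_mul (mul_le_mul_of_nonneg_right h2 (Real.exp_pos _).le) h3 ?_ (by positivity)
        exact Finset.sum_nonneg (fun v _ => by positivity)
    _ = 21 / c * Real.exp (-(bt * y)) * (c * 2.43 ^ m) := by
        rw [e1]
        field_simp
    _ ≤ _ := mul_le_mul_of_nonneg_left h4 (by positivity)

end Run7.h206.SAW
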